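import Pool.Agent.Helper17.R5.Sheet

/-! Row SV1: the residue classes modulo a prime `q` with `q ∣ aA`, `q ∣ aB`. -/

set_option autoImplicit false

namespace Pool.Helper17.R5

namespace SV1

open Polynomial

section Field

variable {F : Type*} [Field F]

/-- the sextic -/
noncomputable def PP (a e σ : F) : F[X] :=
  (X ^ 3 + C (12 * a * e) * X - C a * (C σ - C 3 * X) ^ 2 +
    C (a + e) * (C (4 * a * e) + C 3 * X ^ 2)) ^ 2 -
  C (e - a) * (C σ - C 3 * X) ^ 2 * (X ^ 3 + C (12 * a * e) * X - C a * (C σ - C 3 * X) ^ 2 +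
    C (a + e) * (C (4 * a * e) + C 3 * X ^ 2)) +
  C ((e - a) ^ 2) * (C σ - C 3 * X) ^ 2 * (C (4 * a * e) + C 3 * X ^ 2)

theorem PP_deg (a e σ : F) : (PP a e σ).natDegree ≤ 6 := by
  unfold PP
  compute_degree

theorem PP_coeff (a e σ : F) : (PP a e σ).coeff 6 = 1 := by
  unfold PP
  compute_degree!

theorem PP_ne (a e σ : F) : PP a e σ ≠ 0 := by
  intro h
  have h1 := PP_coeff a e σ
  rw [h, coeff_zero] at h1
  exact zero_ne_one h1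

variable [DecidableEq F]

theorem PP_card (a e σ : F) : (PP a e σ).roots.toFinset.card ≤ 6 :=
  (Multiset.toFinset_card_le _).trans ((card_roots' _).trans (PP_deg a e σ))

/-- the solutions of `x ^ 2 + k x + m = 0` -/
noncomputable def q2 (k m : F) : Finset F := (X ^ 2 + C k * X + C m : F[X]).roots.toFinset

theorem q2_deg (k m : F) : (X ^ 2 + C k * X + C m : F[X]).natDegree ≤ 2 := by
  compute_degree

theorem q2_ne (k m : F) : (X ^ 2 + C k * X + C m : F[X]) ≠ 0 := by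
  intro h
  have h1 : (X ^ 2 + C k * X + C m : F[X]).coeff 2 = 1 := by
    compute_degree!
  rw [h, coeff_zero] at h1
  exact zero_ne_one h1

theorem q2_card (k m : F) : (q2 k m).card ≤ 2 :=
  (Multiset.toFinset_card_le _).trans ((card_roots' _).trans (q2_deg k m))

theorem mem_q2 (k m x : F) (h : x ^ 2 + k * x + m = 0) : x ∈ q2 k m := by
  unfold q2
  rw [Multiset.mem_toFinset, mem_roots (q2_ne k m)]
  simpa [IsRoot] using h

/-- the classes of `y 1` -/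
noncomputable def SS (u0 u2 u3 : F) : Finset F :=
  (PP (u0 ^ 2) (u2 ^ 2) (u3 ^ 2 - u0 ^ 2 - u2 ^ 2)).roots.toFinset.biUnion fun c =>
    q2 0 (-(6 * c + 2 * u0 ^ 2 + 2 * u2 ^ 2 - u3 ^ 2))

theorem SS_card (u0 u2 u3 : F) : (SS u0 u2 u3).card ≤ 12 := by
  refine (Finset.card_biUnion_le_card_mul _ _ 2 fun c _ => q2_card _ _).trans ?_
  have := PP_card (u0 ^ 2) (u2 ^ 2) (u3 ^ 2 - u0 ^ 2 - u2 ^ 2)
  omega

/-- the abscissa `c` -/
def cof (u0 u2 u3 u : F) : F := (u3 ^ 2 + u ^ 2 - 2 * u0 ^ 2 - 2 * u2 ^ 2) / 6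

/-- the classes of `y 4` -/
noncomputable def RR (u0 u2 u3 u : F) : Finset F :=
  (q2 (-(u3 ^ 2 - u0 ^ 2 - u2 ^ 2 - 3 * cof u0 u2 u3 u))
    (4 * u0 ^ 2 * u2 ^ 2 + 3 * cof u0 u2 u3 u ^ 2)).biUnion fun b =>
    q2 0 (-(6 * b + 12 * u0 ^ 2 + 3 * u3 ^ 2 + u ^ 2 - 3 * u2 ^ 2))

theorem RR_card (u0 u2 u3 u : F) : (RR u0 u2 u3 u).card ≤ 4 := by
  refine (Finset.card_biUnion_le_card_mul _ _ 2 fun c _ => q2_card _ _).trans ?_
  have := q2_card (-(u3 ^ 2 - u0 ^ 2 - u2 ^ 2 - 3 * cof u0 u2 u3 u))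
    (4 * u0 ^ 2 * u2 ^ 2 + 3 * cof u0 u2 u3 u ^ 2)
  omega

theorem main (h6 : (6 : F) ≠ 0) (u0 u1 u2 u3 u4 b c d : F)
    (hc : 6 * c = u3 ^ 2 + u1 ^ 2 - 2 * u0 ^ 2 - 2 * u2 ^ 2)
    (hb : 6 * b = u4 ^ 2 - 12 * u0 ^ 2 - 3 * u3 ^ 2 - u1 ^ 2 + 3 * u2 ^ 2)
    (hd : 6 * d = 6 * u3 ^ 2 - 2 * u1 ^ 2 - u4 ^ 2 + 12 * u0 ^ 2 - 3 * u2 ^ 2)
    (hA : 4 * u0 ^ 2 * u2 ^ 2 - b * d + 3 * c ^ 2 = 0)
    (hB : u0 ^ 2 * d ^ 2 + u2 ^ 2 * b ^ 2 - b * d * c - 8 * u0 ^ 2 * c * u2 ^ 2 + 2 * c ^ 3 = 0) :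
    u1 ∈ SS u0 u2 u3 ∧ u4 ∈ RR u0 u2 u3 u1 := by
  have hs : b + d = u3 ^ 2 - u0 ^ 2 - u2 ^ 2 - 3 * c := by
    apply mul_left_cancel₀ h6
    linear_combination hb + hd + 3 * hc
  have hd' : d = u3 ^ 2 - u0 ^ 2 - u2 ^ 2 - 3 * c - b := by linear_combination hs
  have hcof : c = cof u0 u2 u3 u1 := by
    unfold cof
    rw [eq_div_iff h6]
    linear_combination hc
  subst hd'
  constructor
  · unfold SS
    rw [Finset.mem_biUnion]
    refine ⟨c, ?_, mem_q2 _ _ _ (by linear_combination -hc)⟩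
    rw [Multiset.mem_toFinset, mem_roots (PP_ne _ _ _)]
    show (PP _ _ _).eval c = 0
    unfold PP
    simp only [eval_add, eval_sub, eval_mul, eval_pow, eval_C, eval_X]
    set a := u0 ^ 2 with ha
    set e := u2 ^ 2 with he
    set s := u3 ^ 2 - a - e - 3 * c with hs'
    have hW : c ^ 3 + 12 * a * e * c - a * s ^ 2 + (a + e) * (4 * a * e + 3 * c ^ 2) =
        (e - a) * s * b := by
      linear_combination -hB + (a + e + c) * hA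
    rw [hW]
    linear_combination (e - a) ^ 2 * s ^ 2 * hA
  · unfold RR
    rw [Finset.mem_biUnion]
    refine ⟨b, ?_, mem_q2 _ _ _ (by linear_combination -hb)⟩
    apply mem_q2
    rw [← hcof]
    linear_combination hA

end Field

end SV1

theorem st_SV1 (hrel : ST_REL) : ST_SV1 := by
  intro q hq hq1 u0 u2 u3
  haveI : Fact q.Prime := ⟨hq⟩
  have h6 : (6 : ZMod q) ≠ 0 := by
    intro h
    have h1 : ((6 : ℕ) : ZMod q) = 0 := by exact_mod_cast h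
    rw [ZMod.natCast_eq_zero_iff] at h1
    have := Nat.le_of_dvd (by norm_num) h1
    omega
  refine ⟨SV1.SS u0 u2 u3, SV1.SS_card u0 u2 u3, SV1.RR u0 u2 u3, SV1.RR_card u0 u2 u3, ?_⟩
  intro y hy h0 h2 h3 hA hB
  obtain ⟨hc, hb, hd, -⟩ := hrel y hy
  have hc' : 6 * ((cc y : ℤ) : ZMod q) = ((y 3 : ℤ) : ZMod q) ^ 2 + ((y 1 : ℤ) : ZMod q) ^ 2 -
      2 * ((y 0 : ℤ) : ZMod q) ^ 2 - 2 * ((y 2 : ℤ) : ZMod q) ^ 2 := by
    have := congrArg (fun z : ℤ => (z : ZMod q)) hc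
    push_cast at this
    exact this
  have hb' : 6 * ((bb y : ℤ) : ZMod q) = ((y 4 : ℤ) : ZMod q) ^ 2 -
      12 * ((y 0 : ℤ) : ZMod q) ^ 2 - 3 * ((y 3 : ℤ) : ZMod q) ^ 2 -
      ((y 1 : ℤ) : ZMod q) ^ 2 + 3 * ((y 2 : ℤ) : ZMod q) ^ 2 := by
    have := congrArg (fun z : ℤ => (z : ZMod q)) hb
    push_cast at this
    exact this
  have hd' : 6 * ((dd y : ℤ) : ZMod q) = 6 * ((y 3 : ℤ) : ZMod q) ^ 2 -
      2 * ((y 1 : ℤ) : ZMod q) ^ 2 - ((y 4 : ℤ) : ZMod q) ^ 2 +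
      12 * ((y 0 : ℤ) : ZMod q) ^ 2 - 3 * ((y 2 : ℤ) : ZMod q) ^ 2 := by
    have := congrArg (fun z : ℤ => (z : ZMod q)) hd
    push_cast at this
    exact this
  have hA' : ((aA y : ℤ) : ZMod q) = 0 := (ZMod.intCast_zmod_eq_zero_iff_dvd _ _).2 hA
  have hB' : ((aB y : ℤ) : ZMod q) = 0 := (ZMod.intCast_zmod_eq_zero_iff_dvd _ _).2 hB
  unfold aA at hA'
  unfold aB at hB'
  push_cast at hA' hB'
  rw [← h0, ← h2, ← h3]
  exact SV1.main h6 _ _ _ _ _ ((bb y : ℤ) : ZMod q) ((cc y : ℤ) : ZMod q)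
    ((dd y : ℤ) : ZMod q) hc' hb' hd' (by linear_combination -hA') (by linear_combination hB')

end Pool.Helper17.R5
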