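import Pool.Agent.Helper17.R5.Sheet

/-! Row SV2: the number of members of the family with `q ∣ aA`, `q ∣ aB`. -/

set_option autoImplicit false

namespace Pool.Helper17.R5

namespace SV2

theorem fib_card (q : ℕ) (hq : 0 < q) (N : ℕ) (T : Finset ℕ) (hT : ∀ t ∈ T, t < N)
    (h : ∀ t ∈ T, ∀ t' ∈ T, t % q = t' % q) : T.card ≤ N / q + 1 := by
  have h1 : Set.MapsTo (fun t : ℕ => t / q) T (Finset.range (N / q + 1)) := by
    intro t ht
    show t / q ∈ ((Finset.range (N / q + 1) : Finset ℕ) : Set ℕ)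
    rw [Finset.mem_coe, Finset.mem_range]
    have := Nat.div_le_div_right (c := q) (hT t ht).le
    omega
  have h2 : Set.InjOn (fun t : ℕ => t / q) (T : Set ℕ) := by
    intro t ht t' ht' he
    have e1 : t / q = t' / q := he
    have e2 := h t ht t' ht'
    rw [← Nat.div_add_mod t q, ← Nat.div_add_mod t' q, e1, e2]
  have h3 := Finset.card_le_card_of_injOn (fun t : ℕ => t / q) h1 h2
  rwa [Finset.card_range] at h3

open Classical in
theorem cls_card (q : ℕ) [Fact q.Prime] (N : ℕ) (c k M : ℤ) (hM : ((M : ℤ) : ZMod q) ≠ 0)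
    (S : Finset (ZMod q)) :
    ((Finset.range N).filter (fun t : ℕ => ((c + M * (k + (t : ℤ)) : ℤ) : ZMod q) ∈ S)).card ≤
      S.card * (N / q + 1) := by
  have hsub : (Finset.range N).filter (fun t : ℕ => ((c + M * (k + (t : ℤ)) : ℤ) : ZMod q) ∈ S) ⊆
      S.biUnion (fun s => (Finset.range N).filter
        (fun t : ℕ => ((c + M * (k + (t : ℤ)) : ℤ) : ZMod q) = s)) := by
    intro t ht
    rw [Finset.mem_filter] at ht
    rw [Finset.mem_biUnion]
    exact ⟨_, ht.2, Finset.mem_filter.2 ⟨ht.1, rfl⟩⟩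
  refine (Finset.card_le_card hsub).trans (Finset.card_biUnion_le_card_mul _ _ _ ?_)
  intro s _
  apply fib_card q (Fact.out : q.Prime).pos N
  · intro t ht
    exact Finset.mem_range.1 (Finset.mem_filter.1 ht).1
  · intro t ht t' ht'
    have e1 := (Finset.mem_filter.1 ht).2
    have e2 := (Finset.mem_filter.1 ht').2
    rw [← e2] at e1
    push_cast at e1
    have e3 : ((M : ℤ) : ZMod q) * (t : ZMod q) = ((M : ℤ) : ZMod q) * (t' : ZMod q) := by
      linear_combination e1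
    have e4 := mul_left_cancel₀ hM e3
    rwa [ZMod.natCast_eq_natCast_iff'] at e4

end SV2

open Classical in
theorem st_SV2 (hsv : ST_SV1) : ST_SV2 := by
  intro N q hq hq1
  haveI : Fact q.Prime := ⟨hq⟩
  have hM : ((MM : ℤ) : ZMod q) ≠ 0 := by
    intro h
    have h1 := (ZMod.intCast_zmod_eq_zero_iff_dvd _ _).1 h
    unfold MM at h1
    have h2 : q ∣ Nat.factorial 1000 := by exact_mod_cast h1
    rw [hq.dvd_factorial] at h2
    omega
  choose S hS R hR hmain using hsv q hq hq1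
  -- the residue of a parameter
  set res : Fin 5 → ℕ → ZMod q := fun i t => ((yb i + MM * (sh i * (N : ℤ) + (t : ℤ)) : ℤ) : ZMod q)
    with hres
  set A : ℕ × ℕ × ℕ → Finset ℕ := fun p => (Finset.range N).filter
    (fun t : ℕ => res 1 t ∈ S (res 0 p.1) (res 2 p.2.1) (res 3 p.2.2)) with hA
  set B : ℕ × ℕ × ℕ → ℕ → Finset ℕ := fun p x => (Finset.range N).filter
    (fun t : ℕ => res 4 t ∈ R (res 0 p.1) (res 2 p.2.1) (res 3 p.2.2) (res 1 x)) with hB
  set U : Finset (Σ _ : ℕ × ℕ × ℕ, Σ _ : ℕ, ℕ) :=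
    (Finset.range N ×ˢ Finset.range N ×ˢ Finset.range N).sigma
      (fun p => (A p).sigma (fun x => B p x)) with hU
  have hAc : ∀ p, (A p).card ≤ 12 * (N / q + 1) := fun p =>
    (SV2.cls_card q N _ _ _ hM _).trans (Nat.mul_le_mul_right _ (hS _ _ _))
  have hBc : ∀ p x, (B p x).card ≤ 4 * (N / q + 1) := fun p x =>
    (SV2.cls_card q N _ _ _ hM _).trans (Nat.mul_le_mul_right _ (hR _ _ _ _))
  have hUc : U.card ≤ 48 * (N / q + 1) ^ 2 * N ^ 3 := by
    rw [hU, Finset.card_sigma]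
    have h1 : ∀ p ∈ Finset.range N ×ˢ Finset.range N ×ˢ Finset.range N,
        ((A p).sigma (fun x => B p x)).card ≤ 48 * (N / q + 1) ^ 2 := by
      intro p _
      rw [Finset.card_sigma]
      refine (Finset.sum_le_card_nsmul _ _ (4 * (N / q + 1)) fun x _ => hBc p x).trans ?_
      rw [smul_eq_mul]
      refine (Nat.mul_le_mul_right _ (hAc p)).trans (le_of_eq ?_)
      ring
    refine (Finset.sum_le_card_nsmul _ _ _ h1).trans (le_of_eq ?_)
    rw [smul_eq_mul, Finset.card_product, Finset.card_product, Finset.card_range]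
    ring
  refine le_trans ?_ hUc
  apply Finset.card_le_card_of_injOn
    (fun t : Fin 5 → ℕ => (⟨(t 0, t 2, t 3), ⟨t 1, t 4⟩⟩ : Σ _ : ℕ × ℕ × ℕ, Σ _ : ℕ, ℕ))
  · intro t ht
    rw [Finset.coe_filter] at ht
    obtain ⟨ht1, ht2, ht3⟩ := ht
    unfold Box at ht1
    rw [Fintype.mem_piFinset] at ht1
    have hgood : Good (yy N t) := by
      intro i
      unfold yy
      exact ⟨sh i * (N : ℤ) + (t i : ℤ), by ring⟩
    obtain ⟨m1, m2⟩ := hmain (res 0 (t 0)) (res 2 (t 2)) (res 3 (t 3)) (yy N t) hgood rfl rfl rfl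
      ht2 ht3
    show (⟨(t 0, t 2, t 3), ⟨t 1, t 4⟩⟩ : Σ _ : ℕ × ℕ × ℕ, Σ _ : ℕ, ℕ) ∈ (U : Set _)
    rw [Finset.mem_coe, hU, Finset.mem_sigma]
    refine ⟨?_, ?_⟩
    · simp only [Finset.mem_product]
      exact ⟨ht1 0, ht1 2, ht1 3⟩
    · rw [Finset.mem_sigma]
      exact ⟨Finset.mem_filter.2 ⟨ht1 1, m1⟩, Finset.mem_filter.2 ⟨ht1 4, m2⟩⟩
  · intro t _ t' _ he
    simp only [Sigma.mk.injEq, Prod.mk.injEq, heq_eq_eq] at he
    obtain ⟨⟨h0, h2, h3⟩, h1, h4⟩ := he
    funext i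
    fin_cases i
    · exact h0
    · exact h1
    · exact h2
    · exact h3
    · exact h4

end Pool.Helper17.R5
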